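import Pool.Agent.H98.RFZ.Targets2

/-!
# Row B3 of the board rfz_modules: gain at a hard scale
-/

set_option autoImplicit false

noncomputable section

open MeasureTheory ProbabilityTheory Filter Topology

namespace Pool.Agent.H19.RFZ

open Pool.Agent.H98.RFC Pool.Agent.H98.RFZ

instance : IsProbabilityMeasure gam := by
  unfold gam
  infer_instance

theorem mem_box {L : ℕ} {x : Site} :
    x ∈ box L ↔ (-(L : ℤ) ≤ x.1 ∧ x.1 ≤ L) ∧ (-(L : ℤ) ≤ x.2 ∧ x.2 ≤ L) := by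
  unfold box
  rw [Finset.mem_product, Finset.mem_Icc, Finset.mem_Icc]

theorem card_box (L : ℕ) : (box L).card = (2 * L + 1) ^ 2 := by
  unfold box
  rw [Finset.card_product, Int.card_Icc, sq]
  congr 1 <;> omega

theorem bd_eb {r : ℕ} {x : Site} (h : x ∈ eb 0 r) :
    (-(r : ℤ) ≤ x.1 ∧ x.1 ≤ r) ∧ (-(r : ℤ) ≤ x.2 ∧ x.2 ≤ r) := by
  unfold eb at h
  have h1 := (Finset.mem_filter.1 h).1
  unfold bx at h1
  rw [Finset.mem_product, Finset.mem_Icc, Finset.mem_Icc] at h1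
  simpa using h1

/-- rounding -/
theorem rnd (u : ℕ) (hu : 0 < u) (t : ℤ) : ∃ P : ℤ,
    -(u : ℤ) ≤ 2 * (t - u * P) ∧ 2 * (t - u * P) ≤ u := by
  have hu' : (0 : ℤ) < 2 * u := by positivity
  refine ⟨(2 * t + u) / (2 * u), ?_⟩
  have h1 := Int.emod_add_mul_ediv (2 * t + u) (2 * (u : ℤ))
  have h2 := Int.emod_nonneg (2 * t + u) hu'.ne'
  have h3 := Int.emod_lt_of_pos (2 * t + u) hu'
  constructor <;> linarith

/-- rounding of sites -/
theorem rnd2 (u A : ℕ) (hu : 0 < u) (hA : 1 ≤ A) (x : Site) (hx : x ∈ eb 0 (8 * (A * u))) :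
    ∃ P : Site, P ∈ box (9 * A) ∧ 2 * nsq (x - sm u P) ≤ (u : ℤ) ^ 2 ∧
      (-(u : ℤ) ≤ 2 * (x.1 - u * P.1) ∧ 2 * (x.1 - u * P.1) ≤ u) ∧
      (-(u : ℤ) ≤ 2 * (x.2 - u * P.2) ∧ 2 * (x.2 - u * P.2) ≤ u) := by
  obtain ⟨P1, h1, h2⟩ := rnd u hu x.1
  obtain ⟨P2, h3, h4⟩ := rnd u hu x.2
  obtain ⟨⟨h5, h6⟩, h7, h8⟩ := bd_eb hx
  have hu' : (0 : ℤ) < u := by exact_mod_cast hu
  have hA' : (1 : ℤ) ≤ A := by exact_mod_cast hA
  push_cast at h5 h6 h7 h8
  have key : ∀ t P : ℤ, -(u : ℤ) ≤ 2 * (t - u * P) → 2 * (t - u * P) ≤ u →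
      -(8 * (A * (u : ℤ))) ≤ t → t ≤ 8 * (A * (u : ℤ)) → -(9 * (A : ℤ)) ≤ P ∧ P ≤ 9 * A := by
    intro t P g1 g2 g3 g4
    constructor
    · by_contra hc
      push Not at hc
      have : u * P ≤ u * (-(9 * (A : ℤ)) - 1) := mul_le_mul_of_nonneg_left (by omega) hu'.le
      nlinarith
    · by_contra hc
      push Not at hc
      have : u * (9 * (A : ℤ) + 1) ≤ u * P := mul_le_mul_of_nonneg_left (by omega) hu'.le
      nlinarith
  refine ⟨(P1, P2), ?_, ?_, ⟨h1, h2⟩, h3, h4⟩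
  · rw [mem_box]
    push_cast
    exact ⟨key x.1 P1 h1 h2 h5 h6, key x.2 P2 h3 h4 h7 h8⟩
  · unfold nsq sm
    simp only [Prod.fst_sub, Prod.snd_sub]
    nlinarith

/-- the rounded vector is long -/
theorem long (u A : ℤ) (hu : 0 < u) (hA : 100 ≤ A) (D1 D2 U1 U2 : ℤ)
    (h1 : -u ≤ D1 - u * U1) (h2 : D1 - u * U1 ≤ u) (h3 : -u ≤ D2 - u * U2)
    (h4 : D2 - u * U2 ≤ u) (hD : (A * u) ^ 2 ≤ D1 ^ 2 + D2 ^ 2) :
    (A - 2) ^ 2 ≤ U1 ^ 2 + U2 ^ 2 := by
  by_contra hc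
  push Not at hc
  set e1 := D1 - u * U1 with he1
  set e2 := D2 - u * U2 with he2
  set s := A - 2 with hs
  have hs0 : 98 ≤ s := by omega
  have h5 : e1 ^ 2 + e2 ^ 2 ≤ 2 * u ^ 2 := by nlinarith
  have h6 : (U1 * e1 + U2 * e2) ^ 2 ≤ (U1 ^ 2 + U2 ^ 2) * (e1 ^ 2 + e2 ^ 2) := by
    nlinarith [sq_nonneg (U1 * e2 - U2 * e1)]
  have h7 : (U1 ^ 2 + U2 ^ 2) * (e1 ^ 2 + e2 ^ 2) ≤ s ^ 2 * (2 * u ^ 2) :=
    mul_le_mul hc.le h5 (by positivity) (by positivity)
  have h8 : (2 * (U1 * e1 + U2 * e2)) ^ 2 ≤ (3 * u * s) ^ 2 := by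
    nlinarith [mul_nonneg (sq_nonneg u) (sq_nonneg s)]
  have h9 : 2 * (U1 * e1 + U2 * e2) ≤ 3 * u * s := by
    have hpos : 0 ≤ 3 * u * s := by positivity
    exact (abs_le_of_sq_le_sq' h8 hpos).2
  have hD1 : D1 = u * U1 + e1 := by rw [he1]; ring
  have hD2 : D2 = u * U2 + e2 := by rw [he2]; ring
  have hA' : A = s + 2 := by rw [hs]; ring
  have h10 : D1 ^ 2 + D2 ^ 2 = u ^ 2 * (U1 ^ 2 + U2 ^ 2) + u * (2 * (U1 * e1 + U2 * e2)) +
      (e1 ^ 2 + e2 ^ 2) := by rw [hD1, hD2]; ring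
  have h11 : u ^ 2 * (U1 ^ 2 + U2 ^ 2) ≤ u ^ 2 * s ^ 2 :=
    mul_le_mul_of_nonneg_left hc.le (by positivity)
  have h12 : u * (2 * (U1 * e1 + U2 * e2)) ≤ u * (3 * u * s) :=
    mul_le_mul_of_nonneg_left h9 hu.le
  rw [h10, hA'] at hD
  nlinarith [mul_pos hu hu, mul_pos (mul_pos hu hu) (show 0 < s by omega)]

theorem pf_B3 (hB1 : B_B1) (hB2 : B_B2) (hBM : B_MEA) (hCM : C_MEA) (hIND : Z_IND) : B_B3 := by
  intro R J hJ ε p a b a' b' α β θ κ φ δ A A' M K' n u v hp hα hαβ ha1 ha2 hb1 hb2 ha' hb' hθ hθ1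
    hκ hκ1 hφ hφ1 hδ hδ1 hN1 hN2 hA hA1 hA2 hκ2 hM hM10 hn hu1 hu2 hv hHard
  have hA100 : 100 ≤ A' := by omega
  have hv0 : 0 < v := by omega
  have hu8 : 8 * v ≤ u := (Nat.mul_le_mul_right v hA).trans hu1
  have hu0 : 0 < u := by omega
  let Q : Site × Site → Prop := fun q => q.1 ∈ box (9 * A') ∧ q.2 ∈ box (9 * A') ∧
    ((A' : ℤ) - 2) ^ 2 ≤ nsq (q.2 - q.1)
  have hT : ∀ q : Site × Site, Q q → _ := fun q hq =>
    hB2 R J hJ φ p M K' n A' u hφ hφ1 hp hM hM10 hn (by omega) q.1 q.2 hq.1 hq.2.1 hq.2.2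
  choose y w hw1 hw2 hw3 using hT
  let E : Site × Site → Set (Site → ℝ) := fun q => {η | ∃ hq : Q q, ∀ m,
    φ * |(gdot p (w q hq m) : ℝ)| ≤ |(fdet p (w q hq m) : ℝ)| ∧
      Crs R J (fun x => ε * η x) u (w q hq m) K' (y q hq m)}
  have hE : ∀ q, (gam (E q)).toReal ≤ (1 - δ) ^ n := by
    intro q
    have h0 : 0 ≤ (1 - δ) ^ n := pow_nonneg (by linarith) n
    by_cases hq : Q q
    · by_cases hm : ∀ m, φ * |(gdot p (w q hq m) : ℝ)| ≤ |(fdet p (w q hq m) : ℝ)|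
      · have h1 : E q ⊆ ⋂ m, {η | Crs R J (fun x => ε * η x) u (w q hq m) K' (y q hq m)} := by
          rintro η ⟨hq', h2⟩
          exact Set.mem_iInter.2 fun m => (h2 m).2
        have h2 := hIND n (fun m => tube (y q hq m) (y q hq m + sm u (w q hq m)) (K' * u))
          (fun m => {η | Crs R J (fun x => ε * η x) u (w q hq m) K' (y q hq m)})
          (fun m m' hmm => hw2 q hq m m' hmm)
          (fun m => (hCM R J hJ ε u (w q hq m) K' (y q hq m)).1)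
          (fun m η η' h => (hCM R J hJ ε u (w q hq m) K' (y q hq m)).2.1 η η' h)
        calc (gam (E q)).toReal ≤ (gam (⋂ m, {η | Crs R J (fun x => ε * η x) u (w q hq m) K'
              (y q hq m)})).toReal := ENNReal.toReal_mono (measure_ne_top _ _) (measure_mono h1)
          _ = ∏ m : Fin n, (gam {η | Crs R J (fun x => ε * η x) u (w q hq m) K'
              (y q hq m)}).toReal := by rw [h2, ENNReal.toReal_prod]
          _ ≤ ∏ m : Fin n, (1 - δ) := by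
              refine Finset.prod_le_prod (fun m _ => ENNReal.toReal_nonneg) fun m _ => ?_
              rw [(hCM R J hJ ε u (w q hq m) K' (y q hq m)).2.2]
              exact hHard (w q hq m) (hw1 q hq m) (hm m)
          _ = (1 - δ) ^ n := by rw [Finset.prod_const, Finset.card_univ, Fintype.card_fin]
      · have h1 : E q = ∅ := by
          rw [Set.eq_empty_iff_forall_notMem]
          rintro η ⟨hq', h2⟩
          exact hm fun m => (h2 m).1
        rw [h1, measure_empty]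
        exact h0
    · have h1 : E q = ∅ := by
        rw [Set.eq_empty_iff_forall_notMem]
        rintro η ⟨hq', -⟩
        exact hq hq'
      rw [h1, measure_empty]
      exact h0
  have hsub : {η : Site → ℝ | BadN R J (fun x => ε * η x) (Nq p a' b') (A' * u) 0} ⊆
      (⋃ z ∈ box (18 * A * A'), {η : Site → ℝ | BadN R J (fun x => ε * η x) (Nq p a b) v
        (sm v z)}) ∪ ⋃ q ∈ box (9 * A') ×ˢ box (9 * A'), E q := by
    intro η hη
    by_cases h1 : ∀ z : Site, sm v z ∈ eb 0 (9 * (A' * u)) →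
        ¬ BadN R J (fun x => ε * η x) (Nq p a b) v (sm v z)
    · right
      obtain ⟨k, x, hx1, hx2, hx3, hx4, hx5⟩ := hη
      obtain ⟨h2, h3⟩ := hB1 R J hJ (fun x => ε * η x) p a b a' b' α β θ κ (2 * φ) A A' u v hp hα
        hαβ ha1 ha2 hb1 hb2 ha' hb' hθ hθ1 hκ hκ1 (by linarith) hN1 hN2 hA (by omega) hA1 hA2 hκ2
        hu1 (by omega) h1 k x hx1 hx2 hx3 hx4 hx5
      obtain ⟨P, hP1, hP2, hP3, hP4⟩ := rnd2 u A' hu0 (by omega) (x 0) (hx2 0 (Nat.zero_le k))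
      obtain ⟨P', hP1', hP2', hP3', hP4'⟩ := rnd2 u A' hu0 (by omega) (x k) (hx2 k le_rfl)
      have hlong : ((A' : ℤ) - 2) ^ 2 ≤ nsq (P' - P) := by
        have hu' : (0 : ℤ) < u := by exact_mod_cast hu0
        have h5 := hx4
        unfold nsq at h5
        simp only [Prod.fst_sub, Prod.snd_sub] at h5
        push_cast at h5
        unfold nsq
        simp only [Prod.fst_sub, Prod.snd_sub]
        refine long u A' hu' (by exact_mod_cast hA100) ((x k).1 - (x 0).1) ((x k).2 - (x 0).2)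
          (P'.1 - P.1) (P'.2 - P.2) ?_ ?_ ?_ ?_ h5
        · rw [mul_sub]; linarith [hP3.1, hP3.2, hP3'.1, hP3'.2]
        · rw [mul_sub]; linarith [hP3.1, hP3.2, hP3'.1, hP3'.2]
        · rw [mul_sub]; linarith [hP4.1, hP4.2, hP4'.1, hP4'.2]
        · rw [mul_sub]; linarith [hP4.1, hP4.2, hP4'.1, hP4'.2]
      have hq : Q (P, P') := ⟨hP1, hP1', hlong⟩
      have h6 := hw3 (P, P') hq (fun x => ε * η x) k x hx1 hx2 hx4 hP2 hP2' h3 h2
      refine Set.mem_iUnion₂.2 ⟨(P, P'), Finset.mem_product.2 ⟨hP1, hP1'⟩, hq, fun m => ?_⟩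
      exact ⟨h6.1 m, h6.2 m⟩
    · left
      push Not at h1
      obtain ⟨z, hz1, hz2⟩ := h1
      refine Set.mem_iUnion₂.2 ⟨z, ?_, hz2⟩
      obtain ⟨⟨h5, h6⟩, h7, h8⟩ := bd_eb hz1
      unfold sm at h5 h6 h7 h8
      simp only at h5 h6 h7 h8
      push_cast at h5 h6 h7 h8
      have hv' : (0 : ℤ) < v := by exact_mod_cast hv0
      have hA0 : (0 : ℤ) ≤ A' := by positivity
      have hu' : (u : ℤ) ≤ 2 * A * v := by exact_mod_cast hu2
      have h9 : (A' : ℤ) * u ≤ A' * (2 * A * v) := mul_le_mul_of_nonneg_left hu' hA0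
      have key : ∀ t : ℤ, -(9 * (A' * (u : ℤ))) ≤ v * t → v * t ≤ 9 * (A' * (u : ℤ)) →
          -(18 * (A : ℤ) * A') ≤ t ∧ t ≤ 18 * A * A' := by
        intro t g1 g2
        constructor
        · by_contra hc
          push Not at hc
          have : v * t ≤ v * (-(18 * (A : ℤ) * A') - 1) :=
            mul_le_mul_of_nonneg_left (by omega) hv'.le
          nlinarith
        · by_contra hc
          push Not at hc
          have : v * (18 * (A : ℤ) * A' + 1) ≤ v * t :=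
            mul_le_mul_of_nonneg_left (by omega) hv'.le
          nlinarith
      rw [mem_box]
      push_cast
      exact ⟨key z.1 h5 h6, key z.2 h7 h8⟩
  have hpB : 0 ≤ pB R J ε (Nq p a b) v := ENNReal.toReal_nonneg
  have h1 : pB R J ε (Nq p a' b') (A' * u) ≤
      gam.real (⋃ z ∈ box (18 * A * A'), {η : Site → ℝ | BadN R J (fun x => ε * η x) (Nq p a b) v
        (sm v z)}) + gam.real (⋃ q ∈ box (9 * A') ×ˢ box (9 * A'), E q) :=
    (measureReal_mono hsub).trans (measureReal_union_le _ _)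
  have h2 : gam.real (⋃ z ∈ box (18 * A * A'), {η : Site → ℝ | BadN R J (fun x => ε * η x)
      (Nq p a b) v (sm v z)}) ≤ (40 * (A : ℝ) * A') ^ 2 * pB R J ε (Nq p a b) v := by
    refine (measureReal_biUnion_finset_le _ _).trans ?_
    have h2' : ∀ z ∈ box (18 * A * A'), gam.real {η : Site → ℝ | BadN R J (fun x => ε * η x)
        (Nq p a b) v (sm v z)} = pB R J ε (Nq p a b) v :=
      fun z _ => (hBM R J hJ ε (Nq p a b) v (sm v z)).2.2
    rw [Finset.sum_congr rfl h2', Finset.sum_const, card_box, nsmul_eq_mul]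
    refine mul_le_mul_of_nonneg_right ?_ hpB
    push_cast
    have hAA : (1 : ℝ) ≤ A * A' := by
      have h3 : (1 : ℝ) ≤ A := by exact_mod_cast (by omega : 1 ≤ A)
      have h4 : (1 : ℝ) ≤ A' := by exact_mod_cast (by omega : 1 ≤ A')
      nlinarith
    refine pow_le_pow_left₀ (by positivity) ?_ 2
    nlinarith
  have h3 : gam.real (⋃ q ∈ box (9 * A') ×ˢ box (9 * A'), E q) ≤
      (20 * (A' : ℝ)) ^ 4 * (1 - δ) ^ n := by
    refine (measureReal_biUnion_finset_le _ _).trans ?_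
    refine (Finset.sum_le_sum fun q _ => hE q).trans ?_
    rw [Finset.sum_const, Finset.card_product, card_box, nsmul_eq_mul]
    refine mul_le_mul_of_nonneg_right ?_ (pow_nonneg (by linarith) n)
    push_cast
    have h4 : (1 : ℝ) ≤ A' := by exact_mod_cast (by omega : 1 ≤ A')
    rw [← pow_add]
    refine pow_le_pow_left₀ (by positivity) ?_ 4
    linarith
  linarith

end Pool.Agent.H19.RFZ
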