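import Pool.Agent.H98.RFZ.Targets3

/-!
# Row QPOS of the board rfz_modules: a crossed tube makes the minimal cut positive
-/

set_option autoImplicit false

noncomputable section

open MeasureTheory ProbabilityTheory Filter Topology

namespace Pool.Agent.H19.RFZ

open Pool.Agent.H98.RFC Pool.Agent.H98.RFZ

theorem mem_bx' {y : Site} {r : ℕ} {x : Site} :
    x ∈ bx y r ↔ (y.1 - r ≤ x.1 ∧ x.1 ≤ y.1 + r) ∧ (y.2 - r ≤ x.2 ∧ x.2 ≤ y.2 + r) := by
  unfold bx
  rw [Finset.mem_product, Finset.mem_Icc, Finset.mem_Icc]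

theorem mem_eb' {z x : Site} {r : ℕ} : x ∈ eb z r ↔ nsq (x - z) ≤ (r : ℤ) ^ 2 := by
  unfold eb
  rw [Finset.mem_filter]
  refine ⟨fun h => h.2, fun h => ⟨?_, h⟩⟩
  rw [mem_bx']
  unfold nsq at h
  simp only [Prod.fst_sub, Prod.snd_sub] at h
  have h1 : (x.1 - z.1) ^ 2 ≤ (r : ℤ) ^ 2 := by nlinarith [sq_nonneg (x.2 - z.2)]
  have h2 : (x.2 - z.2) ^ 2 ≤ (r : ℤ) ^ 2 := by nlinarith [sq_nonneg (x.1 - z.1)]
  have h3 := abs_le_of_sq_le_sq' h1 (by positivity)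
  have h4 := abs_le_of_sq_le_sq' h2 (by positivity)
  constructor <;> constructor <;> omega

open Classical in
theorem mem_tube' {a b x : Site} {r : ℕ} : x ∈ tube a b r ↔
    x ∈ bx a (r + (b.1 - a.1).natAbs + (b.2 - a.2).natAbs + 1) ∧ nearSeg a b x r := by
  unfold tube
  exact Finset.mem_filter

theorem eb_tube (b : Site) (r s : ℕ) (h : r ≤ s) : eb 0 r ⊆ tube 0 b s := by
  intro x hx
  rw [mem_eb'] at hx
  rw [sub_zero] at hx
  unfold nsq at hx
  have hrs : (r : ℤ) ^ 2 ≤ (s : ℤ) ^ 2 := by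
    have : (r : ℤ) ≤ s := by exact_mod_cast h
    exact pow_le_pow_left₀ (by positivity) this 2
  have h1 : x.1 ^ 2 ≤ (s : ℤ) ^ 2 := by nlinarith [sq_nonneg x.2]
  have h2 : x.2 ^ 2 ≤ (s : ℤ) ^ 2 := by nlinarith [sq_nonneg x.1]
  have h3 := abs_le_of_sq_le_sq' h1 (by positivity)
  have h4 := abs_le_of_sq_le_sq' h2 (by positivity)
  refine mem_tube'.2 ⟨?_, 0, le_rfl, zero_le_one, ?_⟩
  · rw [mem_bx']
    simp only [Prod.fst_zero, Prod.snd_zero, sub_zero]
    constructor <;> constructor <;> omega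
  · simp only [Prod.fst_zero, Prod.snd_zero, Int.cast_zero, zero_mul, add_zero, sub_zero]
    have h5 : x.1 ^ 2 + x.2 ^ 2 ≤ (s : ℤ) ^ 2 := hx.trans hrs
    exact_mod_cast h5

theorem ite_nn {P : Prop} {_ : Decidable P} {r : ℝ} (h : 0 ≤ r) : 0 ≤ if P then r else 0 := by
  split_ifs
  · exact h
  · exact le_rfl

theorem pf_QPOS (hDM : Z_DM) : Q_POS := by
  intro R J hJ h M K' u C v hM hv hu hC hCK hcrs
  obtain ⟨k, x, hp, -, hx0, hxk⟩ := hcrs
  rw [zero_add] at hp hxk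
  have hu0 : (0 : ℤ) < u := by exact_mod_cast (by omega : 0 < u)
  have hRu : 10 * (R : ℤ) ≤ u := by exact_mod_cast (by omega : 10 * R ≤ u)
  have hR0 : (0 : ℤ) ≤ R := by positivity
  -- the end of the path
  have hend : x k ∉ eb 0 (10 * u) := by
    intro h1
    rw [mem_eb'] at h1 hxk
    rw [sub_zero] at h1
    unfold InVM at hv
    have hM' : (30 : ℤ) ≤ M := by exact_mod_cast hM
    have h2 : (28 : ℤ) ^ 2 ≤ nsq v := le_trans (by nlinarith) hv.1
    unfold nsq at h1 h2 hxk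
    unfold sm at hxk
    simp only [Prod.fst_sub, Prod.snd_sub] at hxk
    push_cast at h1 hxk
    have h3 : (u : ℤ) ^ 2 * 28 ^ 2 ≤ u ^ 2 * (v.1 ^ 2 + v.2 ^ 2) :=
      mul_le_mul_of_nonneg_left h2 (by positivity)
    nlinarith [sq_nonneg ((x k).1 + ((x k).1 - u * v.1)), sq_nonneg ((x k).2 +
      ((x k).2 - u * v.2)), mul_pos hu0 hu0]
  have hstart : x 0 ∈ eb 0 (5 * u) := by
    rw [mem_eb'] at hx0 ⊢
    refine hx0.trans ?_
    push_cast
    nlinarith [mul_pos hu0 hu0]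
  have h510 : eb 0 (5 * u) ⊆ eb 0 (10 * u) := by
    intro y hy
    rw [mem_eb'] at hy ⊢
    refine hy.trans ?_
    push_cast
    nlinarith [mul_pos hu0 hu0]
  unfold cz
  rw [Finset.lt_inf'_iff]
  intro U hU
  obtain ⟨hU1, hU2⟩ := Finset.mem_filter.1 hU
  have hU10 : U ⊆ eb 0 (10 * u) := Finset.mem_powerset.1 hU1
  have h5U : eb 0 (5 * u) ⊆ U := by
    rcases hU2 with h1 | h1
    · exact h1
    · rw [h1]; exact h510
  -- the first exit
  have hex : ∃ i, i < k ∧ x i ∈ U ∧ x (i + 1) ∉ U := by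
    by_contra hc
    push Not at hc
    have hall : ∀ i, i ≤ k → x i ∈ U := by
      intro i
      induction i with
      | zero => exact fun _ => h5U hstart
      | succ i ih => exact fun hi => hc i (by omega) (ih (by omega))
    exact hend (hU10 (hall k le_rfl))
  obtain ⟨i, hik, hi1, hi2⟩ := hex
  have hJ0 : 0 < J (x (i + 1) - x i) := hp.2 i hik
  have hbox : x (i + 1) - x i ∈ box R := by
    by_contra hc
    rw [hJ.range _ hc] at hJ0
    exact lt_irrefl _ hJ0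
  unfold box at hbox
  rw [Finset.mem_product, Finset.mem_Icc, Finset.mem_Icc] at hbox
  simp only [Prod.fst_sub, Prod.snd_sub] at hbox
  obtain ⟨⟨b1, b2⟩, b3, b4⟩ := hbox
  have h10 : x i ∈ eb 0 (10 * u) := hU10 hi1
  have hCu : ∀ y : Site, nsq (y - 0) ≤ (12 * (u : ℤ)) ^ 2 → y ∈ eb 0 (C * u) := by
    intro y hy
    rw [mem_eb']
    refine hy.trans ?_
    push_cast
    have hC' : (12 : ℤ) ≤ C := by exact_mod_cast hC
    exact pow_le_pow_left₀ (by positivity) (mul_le_mul_of_nonneg_right hC' hu0.le) 2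
  have hi3 : x i ∈ eb 0 (C * u) := by
    refine hCu _ ?_
    rw [mem_eb'] at h10
    refine h10.trans ?_
    push_cast
    nlinarith [mul_pos hu0 hu0]
  have hi4 : x (i + 1) ∈ eb 0 (C * u) := by
    refine hCu _ ?_
    rw [mem_eb', sub_zero] at h10
    rw [sub_zero]
    unfold nsq at h10 ⊢
    push_cast at h10
    set d1 := (x (i + 1)).1 - (x i).1 with hd1
    set d2 := (x (i + 1)).2 - (x i).2 with hd2
    have e1 : (x (i + 1)).1 = (x i).1 + d1 := by rw [hd1]; ring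
    have e2 : (x (i + 1)).2 = (x i).2 + d2 := by rw [hd2]; ring
    rw [e1, e2]
    have g1 : d1 ^ 2 ≤ (R : ℤ) ^ 2 := by nlinarith
    have g2 : d2 ^ 2 ≤ (R : ℤ) ^ 2 := by nlinarith
    have g3 : 100 * (R : ℤ) ^ 2 ≤ u ^ 2 := by nlinarith
    nlinarith [sq_nonneg ((x i).1 - 10 * d1), sq_nonneg ((x i).2 - 10 * d2)]
  have hsub : eb 0 (C * u) ⊆ tube 0 (sm u v) (K' * u) :=
    eb_tube _ _ _ (Nat.mul_le_mul_right u hCK)
  have hD := hDM R J hJ h (eb 0 (C * u)) (tube 0 (sm u v) (K' * u)) hsub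
  have hDi : x i ∈ Ds R J h (eb 0 (C * u)) :=
    hD (Finset.mem_inter.2 ⟨hp.1 i (by omega), hi3⟩)
  have hDi' : x (i + 1) ∈ Ds R J h (eb 0 (C * u)) :=
    hD (Finset.mem_inter.2 ⟨hp.1 (i + 1) (by omega), hi4⟩)
  unfold cap
  refine Finset.sum_pos' (fun a _ => Finset.sum_nonneg fun b _ => ite_nn (hJ.nonneg _))
    ⟨x i, hi1, ?_⟩
  refine Finset.sum_pos' (fun b _ => ite_nn (hJ.nonneg _)) ⟨x (i + 1), ?_, ?_⟩
  · rw [Finset.mem_sdiff]
    refine ⟨?_, hi2⟩
    unfold hull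
    rw [Finset.mem_biUnion]
    refine ⟨x i, hi1, ?_⟩
    rw [mem_bx']
    constructor <;> constructor <;> omega
  · rw [if_pos ⟨hDi, hDi'⟩, ← neg_sub, hJ.even]
    exact hJ0

end Pool.Agent.H19.RFZ
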